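import Pool.Agent.H.MP_b1ca72_ag.Fin

open MvPolynomial Pool.Agent.H.MP_b1ca72_ag

namespace Pool.Agent.Results.MP_b1ca72_ag.ThreeCubics

theorem result :
    ∃ (r d t : ℕ) (m : Fin r → ℕ), 1 ≤ d ∧ 1 ≤ t ∧
      ((d + 2).choose 2 : ℤ) - ∑ i, ((m i + 1).choose 2 : ℤ) ≤ max (((t + 1).choose 2 : ℤ) - 2) 0 ∧
      ∀ G : ℕ → MvPolynomial (Fin r × Fin 3) ℂ, (∀ n, G n ≠ 0) →
        ∃ p : Fin r → Fin 3 → ℂ, (∀ n, eval (fun ik => p ik.1 ik.2) (G n) ≠ 0) ∧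
          (∀ i, p i ≠ 0) ∧ (∀ i j, i ≠ j → ∀ c : ℂ, p i ≠ c • p j) ∧
          ∃ F : MvPolynomial (Fin 3) ℂ, F.IsHomogeneous d ∧ Squarefree F ∧
            (∀ i, HasMult F (p i) (m i)) ∧
            ∃ x : Fin 3 → ℂ, x ≠ 0 ∧ (∀ i, ∀ c : ℂ, x ≠ c • p i) ∧ HasMult F x t := by
  refine ⟨11, 9, 3, mm, by norm_num, by norm_num, ?_, main⟩
  simp [mm, Fin.sum_univ_succ, Nat.choose]

end Pool.Agent.Results.MP_b1ca72_ag.ThreeCubics
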